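import Pool.Agent.LPR.Stmts

/-!
# LPR, row ALG: complemented subspaces
-/

set_option autoImplicit false

namespace Pool.Agent.LPR.H77

open Pool.Agent.LSG Pool.Agent.LPR

theorem alg_two {E F T : Type} [AddCommGroup E] [Module ℝ E] [TopologicalSpace E]
    [IsTopologicalAddGroup E] [AddCommGroup F] [Module ℝ F] [TopologicalSpace F]
    [AddCommGroup T] [Module ℝ T] [TopologicalSpace T] (h : Compl F E)
    (h2 : Nonempty (F ≃L[ℝ] (F × T))) : Nonempty (E ≃L[ℝ] (E × T)) := by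
  obtain ⟨i, p, hip⟩ := h
  obtain ⟨t⟩ := h2
  have s : E ≃L[ℝ] (F × p.ker) := ContinuousLinearEquiv.equivOfRightInverse p i hip
  exact ⟨s.trans ((t.prodCongr (ContinuousLinearEquiv.refl ℝ p.ker)).trans
    ((ContinuousLinearEquiv.prodAssoc ℝ F T p.ker).trans
      (((ContinuousLinearEquiv.refl ℝ F).prodCongr
        (ContinuousLinearEquiv.prodComm ℝ T p.ker)).trans
        ((ContinuousLinearEquiv.prodAssoc ℝ F p.ker T).symm.trans
          (s.symm.prodCongr (ContinuousLinearEquiv.refl ℝ T))))))⟩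

theorem alg : AlgStmt := by
  intro E F T T' _ _ _ _ _ _ _ _ _ _ _ _ _ _ _ _ _ _ _ _
  refine ⟨fun h h2 => alg_two h h2, fun h h2 => alg_two h h2, ?_, ?_⟩
  · rintro ⟨i, p, hip⟩ ⟨j, q, hjq⟩
    refine ⟨j.comp i, p.comp q, fun x => ?_⟩
    rw [ContinuousLinearMap.comp_apply, ContinuousLinearMap.comp_apply, hjq, hip]
  · rintro ⟨e1⟩ ⟨e2⟩
    refine ⟨(e1.symm : (E × T) →L[ℝ] E).comp
      ((((e2.symm : (E × T') →L[ℝ] E).comp (ContinuousLinearMap.inr ℝ E T')).comp
        (ContinuousLinearMap.snd ℝ T T')).prod (ContinuousLinearMap.fst ℝ T T')),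
      ((ContinuousLinearMap.snd ℝ E T).comp (e1 : E →L[ℝ] (E × T))).prod
        (((ContinuousLinearMap.snd ℝ E T').comp (e2 : E →L[ℝ] (E × T'))).comp
          ((ContinuousLinearMap.fst ℝ E T).comp (e1 : E →L[ℝ] (E × T)))), ?_⟩
    rintro ⟨t, t'⟩
    simp

end Pool.Agent.LPR.H77
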